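import Mathlib
import Pool.Agent.K9h62.CC.Defs
import Pool.Agent.K9h62.CC.Ind

/-!
# The largest complete class of matroids avoiding `M(K₄)` is the class of the matroids without an
`M(K₄)`-minor

`IsComplete` (complete classes of finite matroids), `Iso`, `IsTruncation`, `Linked`, `IsInduced`:
`Pool.Agent.Helper442.FE.Defs`. `MK4` (the cycle matroid of `K₄`), `HasMinorIso`, `NoMK4` (the class
`𝒦`) and `IsLargestAvoiding` (`C = C̄(N)`): `Pool.Agent.K9h62.CC.Defs`.

The main point is that the class `𝒦` is closed under principal extension, the free addition of an
element to a flat (`HK.of_free`): if `e` is placed freely on the flat `F` of `M` and the extension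
has an `M(K₄)`-minor, then so has `M`. If `e` is an element of the copy of `M(K₄)` then it can be
replaced by an element of `F`, as two of the three-point lines meet in it. If `e` is contracted,
call a line `L` of the copy long if `F` is in the span of `L` before the contraction. One long line
is impossible, since the three other lines span the copy. If two lines are long then their common
element `s` is on `F`, and contracting `s` and taking another element of `F` in its place gives a
copy of `M(K₄)` in `M`. Three long lines are impossible, unless `F` has rank one and `e` is parallel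
to an element of `F`.

Induction by a directed graph is then reduced to principal extensions: the matroid induced from
`M₀` by a graph with vertex set `τ` is a contraction of a restriction of a matroid obtained from the
direct sum of `M₀` and a free matroid by principal extensions (`lk_iff_match`).
-/

set_option autoImplicit false

namespace Pool.Agent.Results.MP_c5be19_co.LargestClass

open Set Pool.Agent.Helper442.FE Pool.Agent.K9h62.CC
open scoped Matroid

/-- The class of the finite matroids without an `M(K₄)`-minor is complete. -/
theorem noMK4_isComplete : IsComplete NoMK4 where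
  finite h := h.1
  iso h hM := noMK4_iso h hM
  restrict h _ hA := noMK4_restrict h hA
  contract h A _ := noMK4_contract h A
  dual h := noMK4_dual h
  directSum h h' := noMK4_sum h h'
  truncate h _ hT := noMK4_truncate h hT
  induce h hN := noMK4_induce h hN

theorem not_noMK4 : ¬ NoMK4 _ MK4 := fun h =>
  h.2 ⟨MK4, ⟨∅, ∅, by simp⟩, Equiv.refl _, fun I => by simp⟩

/-- A complete class that does not contain `M(K₄)` consists of matroids without `M(K₄)`-minor. -/
theorem le_noMK4 {D : MClass} (hD : IsComplete D) (hav : ¬ D _ MK4) {α : Type} {M : Matroid α}
    (hM : D α M) : NoMK4 α M := by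
  refine ⟨hD.finite hM, ?_⟩
  rintro ⟨M', hM', hiso⟩
  obtain ⟨X, Y, hX, hY, hXY, rfl⟩ := hM'.exists_eq_contract_delete_disjoint
  refine hav (hD.iso hiso ?_)
  rw [Matroid.delete_eq_restrict]
  exact hD.restrict (hD.contract hM X hX) _ sdiff_subset

/-- Sanity check: the matroids in the closure condition for induction always exist. -/
theorem induced_exists {τ : Type} [Finite τ] (G : τ → τ → Prop) (M₀ : Matroid τ) (A : Set τ) :
    ∃ N : Matroid τ, IsInduced G M₀ A N := exists_induced G M₀ A

/-- **The largest complete class of matroids that does not contain `M(K₄)` is the class of the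
finite matroids with no minor isomorphic to `M(K₄)`.** In particular this class is complete. -/
theorem result : IsLargestAvoiding MK4 NoMK4 ∧
    ∀ C : MClass, IsLargestAvoiding MK4 C ↔ C = NoMK4 := by
  have h : IsLargestAvoiding MK4 NoMK4 :=
    ⟨noMK4_isComplete, not_noMK4, fun D hD hav _ _ hM => le_noMK4 hD hav hM⟩
  refine ⟨h, fun C => ⟨fun hC => ?_, fun hC => hC ▸ h⟩⟩
  funext α M
  exact propext ⟨fun hM => le_noMK4 hC.1 hC.2.1 hM, fun hM => hC.2.2 _ h.1 h.2.1 α M hM⟩

end Pool.Agent.Results.MP_c5be19_co.LargestClass
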